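import Mathlib

/-!
The family of sets `π` of primes with `E_π = D_π` is closed in the Cantor space of sets of primes,
hence it is either countably infinite or of cardinality continuum.
-/

set_option autoImplicit false

open Set

namespace Pool.Agent.Results.MP_bf01c0_al.Dichotomy

/-- `H` is a Hall `π`-subgroup of `G`. -/
def IsHall (π : Set ℕ) {G : Type} [Group G] (H : Subgroup G) : Prop :=
  (∀ p : ℕ, p.Prime → p ∣ Nat.card H → p ∈ π) ∧ (∀ p : ℕ, p.Prime → p ∣ H.index → p ∉ π)

/-- `E_π = D_π`: in every finite group with a Hall `π`-subgroup, all Hall `π`-subgroups are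
conjugate and every `π`-subgroup is contained in a Hall `π`-subgroup. -/
def EeqD (π : Set ℕ) : Prop :=
  ∀ (G : Type) [Group G] [Finite G], (∃ H : Subgroup G, IsHall π H) →
    ((∀ H K : Subgroup G, IsHall π H → IsHall π K →
        ∃ g : G, K = H.map (MulAut.conj g).toMonoidHom) ∧
      (∀ K : Subgroup G, (∀ p : ℕ, p.Prime → p ∣ Nat.card K → p ∈ π) →
        ∃ H : Subgroup G, IsHall π H ∧ K ≤ H))

/-- The family of sets `π` of primes with `E_π = D_π`. -/
def family : Set (Set ℕ) := {π | (∀ p ∈ π, p.Prime) ∧ EeqD π}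

/-! ### Local nature of the conditions -/

lemma isHall_congr {π π' : Set ℕ} {G : Type} [Group G] [Finite G]
    (h : ∀ n ≤ Nat.card G, (n ∈ π ↔ n ∈ π')) (H : Subgroup G) : IsHall π H ↔ IsHall π' H := by
  have key : ∀ {π π' : Set ℕ}, (∀ n ≤ Nat.card G, (n ∈ π ↔ n ∈ π')) → IsHall π H →
      IsHall π' H := by
    intro π π' h hH
    have hc : 0 < Nat.card G := Nat.card_pos
    refine ⟨fun p hp hd => ?_, fun p hp hd hp' => ?_⟩
    · exact (h p (Nat.le_of_dvd hc (hd.trans H.card_subgroup_dvd_card))).1 (hH.1 p hp hd)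
    · exact hH.2 p hp hd ((h p (Nat.le_of_dvd hc (hd.trans H.index_dvd_card))).2 hp')
  exact ⟨key h, key fun n hn => (h n hn).symm⟩

lemma isPi_congr {π π' : Set ℕ} {G : Type} [Group G] [Finite G]
    (h : ∀ n ≤ Nat.card G, (n ∈ π ↔ n ∈ π')) (K : Subgroup G) :
    (∀ p : ℕ, p.Prime → p ∣ Nat.card K → p ∈ π) ↔ (∀ p : ℕ, p.Prime → p ∣ Nat.card K → p ∈ π') := by
  have key : ∀ {π π' : Set ℕ}, (∀ n ≤ Nat.card G, (n ∈ π ↔ n ∈ π')) →
      (∀ p : ℕ, p.Prime → p ∣ Nat.card K → p ∈ π) →
      (∀ p : ℕ, p.Prime → p ∣ Nat.card K → p ∈ π') := by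
    intro π π' h hK p hp hd
    have hc : 0 < Nat.card G := Nat.card_pos
    exact (h p (Nat.le_of_dvd hc (hd.trans K.card_subgroup_dvd_card))).1 (hK p hp hd)
  exact ⟨key h, key fun n hn => (h n hn).symm⟩

/-- the condition `G ∈ E_π → G ∈ D_π` for a single group -/
def Cond (π : Set ℕ) (G : Type) [Group G] : Prop :=
  (∃ H : Subgroup G, IsHall π H) →
    ((∀ H K : Subgroup G, IsHall π H → IsHall π K →
        ∃ g : G, K = H.map (MulAut.conj g).toMonoidHom) ∧
      (∀ K : Subgroup G, (∀ p : ℕ, p.Prime → p ∣ Nat.card K → p ∈ π) →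
        ∃ H : Subgroup G, IsHall π H ∧ K ≤ H))

lemma cond_congr {π π' : Set ℕ} {G : Type} [Group G] [Finite G]
    (h : ∀ n ≤ Nat.card G, (n ∈ π ↔ n ∈ π')) : Cond π G ↔ Cond π' G := by
  unfold Cond
  simp only [isHall_congr h, isPi_congr h]

/-- A property of binary sequences depending on finitely many coordinates is clopen. -/
lemma isClosed_of_finite_dep (N : ℕ) (Q : (ℕ → Bool) → Prop)
    (hQ : ∀ x y : ℕ → Bool, (∀ n ≤ N, x n = y n) → (Q x → Q y)) : IsClosed {x | Q x} := by
  let r : (ℕ → Bool) → (Fin (N + 1) → Bool) := fun x i => x i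
  have hr : Continuous r := continuous_pi fun i => continuous_apply (i : ℕ)
  have : {x | Q x} = r ⁻¹' (r '' {x | Q x}) := by
    ext x
    constructor
    · exact fun hx => ⟨x, hx, rfl⟩
    · rintro ⟨y, hy, hyx⟩
      refine hQ y x (fun n hn => ?_) hy
      exact congrFun hyx ⟨n, Nat.lt_succ_of_le hn⟩
  rw [this]
  exact (isClosed_discrete _).preimage hr

/-- the support of a binary sequence -/
def supp (x : ℕ → Bool) : Set ℕ := {n | x n = true}

lemma isClosed_family : IsClosed {x : ℕ → Bool | supp x ∈ family} := by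
  have h : {x : ℕ → Bool | supp x ∈ family} =
      (⋂ p : ℕ, {x : ℕ → Bool | p ∈ supp x → p.Prime}) ∩
      (⋂ (G : Type) (_ : Group G) (_ : Finite G), {x : ℕ → Bool | Cond (supp x) G}) := by
    ext x
    simp only [family, EeqD, Cond, mem_ofPred_eq, mem_inter_iff, mem_iInter]
  rw [h]
  refine IsClosed.inter ?_ ?_
  · refine isClosed_iInter fun p => isClosed_of_finite_dep p _ ?_
    intro x y hxy hx hy
    apply hx
    change x p = true
    rw [hxy p le_rfl]
    exact hy
  · refine isClosed_iInter fun G => isClosed_iInter fun _ => isClosed_iInter fun _ => ?_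
    refine isClosed_of_finite_dep (Nat.card G) _ ?_
    intro x y hxy hx
    refine (cond_congr fun n hn => ?_).1 hx
    change x n = true ↔ y n = true
    rw [hxy n hn]

/-! ### The family is infinite -/

lemma singleton_mem_family {p : ℕ} (hp : p.Prime) : ({p} : Set ℕ) ∈ family := by
  refine ⟨fun q hq => by rw [mem_singleton_iff.1 hq]; exact hp, ?_⟩
  intro G _ _ _
  have : Fact p.Prime := ⟨hp⟩
  have hpg : ∀ K : Subgroup G, (∀ q : ℕ, q.Prime → q ∣ Nat.card K → q ∈ ({p} : Set ℕ)) →
      IsPGroup p K := by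
    intro K hK
    refine IsPGroup.of_card (n := (Nat.card K).primeFactorsList.length) ?_
    refine Nat.eq_prime_pow_of_unique_prime_dvd Nat.card_pos.ne' ?_
    intro d hd hdd
    exact hK d hd hdd
  have hsy : ∀ H : Subgroup G, IsHall {p} H → ∃ P : Sylow p G, (P : Subgroup G) = H := by
    intro H hH
    refine ⟨(hpg H hH.1).toSylow fun hd => hH.2 p hp hd rfl, ?_⟩
    simp
  have hsy' : ∀ P : Sylow p G, IsHall {p} (P : Subgroup G) := by
    intro P
    refine ⟨fun q hq hd => ?_, fun q hq hd hqp => ?_⟩
    · obtain ⟨n, hn⟩ := P.2.exists_card_eq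
      rw [hn] at hd
      exact (Nat.prime_dvd_prime_iff_eq hq hp).1 (hq.dvd_of_dvd_pow hd)
    · rw [mem_singleton_iff.1 hqp] at hd
      exact P.not_dvd_index hd
  refine ⟨fun H K hH hK => ?_, fun K hK => ?_⟩
  · obtain ⟨P, rfl⟩ := hsy H hH
    obtain ⟨P', rfl⟩ := hsy K hK
    obtain ⟨g, hg⟩ := MulAction.exists_smul_eq G P P'
    refine ⟨g, ?_⟩
    rw [← hg, Sylow.coe_subgroup_smul]
    rfl
  · obtain ⟨Q, hQ⟩ := (hpg K hK).exists_le_sylow
    exact ⟨Q, hsy' Q, hQ⟩

/-- The family of sets `π` of primes with `E_π = D_π` is closed in the Cantor space of all sets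
of natural numbers, and it is either countably infinite or has cardinality exactly continuum. -/
theorem result : IsClosed {x : ℕ → Bool | supp x ∈ family} ∧
    (Cardinal.mk family = Cardinal.aleph0 ∨ Cardinal.mk family = Cardinal.continuum) := by
  classical
  refine ⟨isClosed_family, ?_⟩
  let C : Set (ℕ → Bool) := {x : ℕ → Bool | supp x ∈ family}
  have hC : IsClosed C := isClosed_family
  have hinf : Infinite family := by
    have : Function.Injective (fun p : Nat.Primes => (⟨{(p : ℕ)}, singleton_mem_family p.2⟩ : family)) := by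
      intro p q h
      have h1 : ({(p : ℕ)} : Set ℕ) = {(q : ℕ)} := congrArg Subtype.val h
      exact Subtype.ext (singleton_injective h1)
    exact Infinite.of_injective _ this
  let e : family → (ℕ → Bool) := fun π n => decide (n ∈ (π : Set ℕ))
  have he : Function.Injective e := by
    intro π π' h
    ext n
    have := congrFun h n
    simpa [e] using this
  by_cases hcount : C.Countable
  · left
    have h1 : Countable family := by
      have hmem : ∀ π : family, e π ∈ C := by
        intro π
        have : supp (e π) = π := by ext n; simp [supp, e]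
        change supp (e π) ∈ family
        rw [this]
        exact π.2
      have : Countable C := hcount.to_subtype
      have hinj : Function.Injective (fun π : family => (⟨e π, hmem π⟩ : C)) := by
        intro π π' h
        exact he (congrArg Subtype.val h)
      exact hinj.countable
    exact le_antisymm (Cardinal.mk_le_aleph0_iff.2 h1) (Cardinal.aleph0_le_mk_iff.2 hinf)
  · right
    have : PolishSpace (ℕ → Bool) := {}
    obtain ⟨f, hf, _, hfi⟩ := hC.exists_nat_bool_injection_of_not_countable hcount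
    have hcard : Cardinal.mk (ℕ → Bool) = Cardinal.continuum := by simp
    refine le_antisymm ?_ ?_
    · rw [← hcard]
      exact Cardinal.mk_le_of_injective he
    · rw [← hcard]
      let g : (ℕ → Bool) → family := fun x => ⟨supp (f x), hf ⟨x, rfl⟩⟩
      refine Cardinal.mk_le_of_injective (f := g) ?_
      intro x y h
      apply hfi
      have h1 : supp (f x) = supp (f y) := congrArg Subtype.val h
      ext n
      have h2 : n ∈ supp (f x) ↔ n ∈ supp (f y) := by rw [h1]
      change f x n = true ↔ f y n = true at h2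
      exact Bool.eq_iff_iff.2 h2

end Pool.Agent.Results.MP_bf01c0_al.Dichotomy
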