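import Mathlib

/-!
# `E_π = D_π` for sets of primes `≥ 5` which contain all primes `≡ 1 mod 4`

The criterion of Gross, Revin and Vdovin for sets of odd primes (a consequence of the
classification of the finite simple groups) is the hypothesis `Criterion`.
-/

set_option autoImplicit false

open Set

namespace Pool.Agent.Results.MP_bf01c0_al.OddCriterion

/-- `H` is a Hall `π`-subgroup of `G`. -/
def IsHall (π : Set ℕ) {G : Type} [Group G] (H : Subgroup G) : Prop :=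
  (∀ p : ℕ, p.Prime → p ∣ Nat.card H → p ∈ π) ∧ (∀ p : ℕ, p.Prime → p ∣ H.index → p ∉ π)

/-- `G ∈ E_π`: there is a Hall `π`-subgroup. -/
def InE (π : Set ℕ) (G : Type) [Group G] : Prop := ∃ H : Subgroup G, IsHall π H

/-- All Hall `π`-subgroups of `G` are conjugate and every `π`-subgroup is contained in one of them
(for `G ∈ E_π` this is `G ∈ D_π`). -/
def InD (π : Set ℕ) (G : Type) [Group G] : Prop :=
  (∀ H K : Subgroup G, IsHall π H → IsHall π K →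
    ∃ g : G, K = H.map (MulAut.conj g).toMonoidHom) ∧
  (∀ K : Subgroup G, (∀ p : ℕ, p.Prime → p ∣ Nat.card K → p ∈ π) →
    ∃ H : Subgroup G, IsHall π H ∧ K ≤ H)

/-- `E_π = D_π`. -/
def EeqD (π : Set ℕ) : Prop := ∀ (G : Type) [Group G] [Finite G], InE π G → InD π G

/-- The family of sets `π` of primes with `E_π = D_π`. -/
def family : Set (Set ℕ) := {π | (∀ p ∈ π, p.Prime) ∧ EeqD π}

/-- `N` is the order of a simple group of Lie type over the field with `q` elements (`A_{n-1}`,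
`²A_{n-1}`, `B_n` or `C_n`, `D_n`, `²D_n`, `E_6`, `²E_6`, `E_7`, `E_8`) such that the prime `p ≥ 5`
divides the order of the Weyl group: `n ≥ p` for the classical groups, `p = 5` for `E_6`, `²E_6` and
`p = 5` or `7` for `E_7`, `E_8`. -/
def LieOrder (p q N : ℕ) : Prop :=
  (∃ n ≥ p, (n.gcd (q - 1) : ℤ) * N =
    q ^ n.choose 2 * ∏ i ∈ Finset.Icc 2 n, ((q : ℤ) ^ i - 1)) ∨
  (∃ n ≥ p, (n.gcd (q + 1) : ℤ) * N =
    q ^ n.choose 2 * ∏ i ∈ Finset.Icc 2 n, ((q : ℤ) ^ i - (-1) ^ i)) ∨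
  (∃ n ≥ p, (Nat.gcd 2 (q - 1) : ℤ) * N =
    q ^ n ^ 2 * ∏ i ∈ Finset.Icc 1 n, ((q : ℤ) ^ (2 * i) - 1)) ∨
  (∃ n ≥ p, (Nat.gcd 4 (q ^ n - 1) : ℤ) * N =
    q ^ (n * (n - 1)) * (q ^ n - 1) * ∏ i ∈ Finset.Icc 1 (n - 1), ((q : ℤ) ^ (2 * i) - 1)) ∨
  (∃ n ≥ p, (Nat.gcd 4 (q ^ n + 1) : ℤ) * N =
    q ^ (n * (n - 1)) * (q ^ n + 1) * ∏ i ∈ Finset.Icc 1 (n - 1), ((q : ℤ) ^ (2 * i) - 1)) ∨
  (p = 5 ∧ (Nat.gcd 3 (q - 1) : ℤ) * N = q ^ 36 * (q ^ 12 - 1) * (q ^ 9 - 1) * (q ^ 8 - 1) *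
    (q ^ 6 - 1) * (q ^ 5 - 1) * (q ^ 2 - 1)) ∨
  (p = 5 ∧ (Nat.gcd 3 (q + 1) : ℤ) * N = q ^ 36 * (q ^ 12 - 1) * (q ^ 9 + 1) * (q ^ 8 - 1) *
    (q ^ 6 - 1) * (q ^ 5 + 1) * (q ^ 2 - 1)) ∨
  ((p = 5 ∨ p = 7) ∧ (Nat.gcd 2 (q - 1) : ℤ) * N = q ^ 63 * (q ^ 18 - 1) * (q ^ 14 - 1) *
    (q ^ 12 - 1) * (q ^ 10 - 1) * (q ^ 8 - 1) * (q ^ 6 - 1) * (q ^ 2 - 1)) ∨
  ((p = 5 ∨ p = 7) ∧ (N : ℤ) = q ^ 120 * (q ^ 30 - 1) * (q ^ 24 - 1) * (q ^ 20 - 1) *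
    (q ^ 18 - 1) * (q ^ 14 - 1) * (q ^ 12 - 1) * (q ^ 8 - 1) * (q ^ 2 - 1))

/-- The criterion of Gross, Revin and Vdovin for sets `π` of primes `≥ 5`: if `E_π ≠ D_π`, then
there is a simple group `G ∈ E_π`, `G ∉ D_π`, of Lie type over a field with `q = p ^ k` elements,
`p ∈ π`, such that `p` divides the order of the Weyl group and all other primes in `π` that divide
`|G|` divide `q - 1`. -/
def Criterion : Prop :=
  ∀ π : Set ℕ, (∀ t ∈ π, t.Prime ∧ 5 ≤ t) → ¬ EeqD π →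
    ∃ p ∈ π, ∃ k ≥ 1, ∃ (G : Type) (_ : Group G) (_ : Finite G), IsSimpleGroup G ∧ InE π G ∧
      ¬ InD π G ∧ LieOrder p (p ^ k) (Nat.card G) ∧
      ∀ t ∈ π, t ≠ p → t ∣ Nat.card G → t ∣ p ^ k - 1

/-! ### The prime divisors of `q ^ 2 + 1` -/

lemma exists_prime {p k : ℕ} (hp : p.Prime) (h5 : 5 ≤ p) (hk : 1 ≤ k) :
    ∃ t : ℕ, t.Prime ∧ t % 4 = 1 ∧ t ∣ (p ^ k) ^ 2 + 1 := by
  obtain ⟨m, hm⟩ : Odd (p ^ k) := (hp.odd_of_ne_two (by omega)).pow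
  have hq : 5 ≤ p ^ k := h5.trans (Nat.le_self_pow (by omega) p)
  have h1 : (p ^ k) ^ 2 + 1 = 2 * (2 * (m * (m + 1)) + 1) := by rw [hm]; ring
  have hm1 : 1 ≤ m := by omega
  have h2 : 2 * (m * (m + 1)) + 1 ≠ 1 := by
    have : 0 < m * (m + 1) := by positivity
    omega
  have ht : (2 * (m * (m + 1)) + 1).minFac.Prime := Nat.minFac_prime h2
  have htd : (2 * (m * (m + 1)) + 1).minFac ∣ 2 * (m * (m + 1)) + 1 := Nat.minFac_dvd _
  refine ⟨_, ht, ?_, ?_⟩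
  · set t := (2 * (m * (m + 1)) + 1).minFac with htt
    have hodd : t ≠ 2 := by
      intro h
      rw [h] at htd
      omega
    have h3 : t % 4 ≠ 3 := by
      have : Fact t.Prime := ⟨ht⟩
      have h0 : (((p ^ k) ^ 2 + 1 : ℕ) : ZMod t) = 0 :=
        (ZMod.natCast_eq_zero_iff _ _).2 (h1 ▸ htd.mul_left 2)
      push_cast at h0
      exact ZMod.mod_four_ne_three_of_sq_eq_neg_one (y := (p : ZMod t) ^ k)
        (by linear_combination h0)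
    rcases ht.eq_two_or_odd with h | h
    · exact absurd h hodd
    · omega
  · rw [h1]
    exact htd.mul_left 2

/-- A prime divisor `t ≥ 5` of `q ^ 2 + 1` does not divide `q ^ 2 - 1`. -/
lemma not_dvd_sq {t q : ℕ} (_ht : t.Prime) (h5 : 5 ≤ t) (h : t ∣ q ^ 2 + 1) :
    ¬ (t : ℤ) ∣ (q : ℤ) ^ 2 - 1 := by
  intro h'
  have h1 : (t : ℤ) ∣ (q : ℤ) ^ 2 + 1 := by exact_mod_cast h
  have h2 : (t : ℤ) ∣ 2 := by
    have := dvd_sub h1 h'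
    have e : (q : ℤ) ^ 2 + 1 - ((q : ℤ) ^ 2 - 1) = 2 := by ring
    rwa [e] at this
  have h3 : t ∣ 2 := by exact_mod_cast h2
  have := Nat.le_of_dvd (by norm_num) h3
  omega

lemma not_dvd_sub {t q : ℕ} (ht : t.Prime) (h5 : 5 ≤ t) (hq : 1 ≤ q) (h : t ∣ q ^ 2 + 1) :
    ¬ t ∣ q - 1 := by
  intro h'
  refine not_dvd_sq ht h5 h ?_
  have h1 : (t : ℤ) ∣ (q : ℤ) - 1 := by
    have : ((q - 1 : ℕ) : ℤ) = (q : ℤ) - 1 := by push_cast [hq]; ring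
    rw [← this]
    exact_mod_cast h'
  exact h1.trans ⟨(q : ℤ) + 1, by ring⟩

lemma not_dvd_add {t q : ℕ} (ht : t.Prime) (h5 : 5 ≤ t) (h : t ∣ q ^ 2 + 1) :
    ¬ t ∣ q + 1 := by
  intro h'
  refine not_dvd_sq ht h5 h ?_
  have h1 : (t : ℤ) ∣ (q : ℤ) + 1 := by exact_mod_cast h'
  exact h1.trans ⟨(q : ℤ) - 1, by ring⟩

lemma key {t d N : ℕ} {M : ℤ} (ht : t.Prime) (hd : ¬ t ∣ d) (h : (d : ℤ) * N = M)
    (hM : (t : ℤ) ∣ M) : t ∣ N := by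
  have h1 : (t : ℤ) ∣ ((d * N : ℕ) : ℤ) := by
    push_cast
    rw [h]
    exact hM
  have h2 : t ∣ d * N := by exact_mod_cast h1
  exact (ht.dvd_mul.1 h2).resolve_left hd

lemma dvd_order {p q t N : ℕ} (h5 : 5 ≤ p) (hq : 1 ≤ q) (ht : t.Prime) (ht5 : 5 ≤ t)
    (htq : t ∣ q ^ 2 + 1) (hN : LieOrder p q N) : t ∣ N := by
  have h4 : (t : ℤ) ∣ (q : ℤ) ^ 4 - 1 := by
    have h1 : (t : ℤ) ∣ (q : ℤ) ^ 2 + 1 := by exact_mod_cast htq
    exact h1.trans ⟨(q : ℤ) ^ 2 - 1, by ring⟩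
  have h8 : (t : ℤ) ∣ (q : ℤ) ^ 8 - 1 := h4.trans ⟨(q : ℤ) ^ 4 + 1, by ring⟩
  have hs := not_dvd_sub ht ht5 hq htq
  have ha := not_dvd_add ht ht5 htq
  have hsm : ∀ c : ℕ, 1 ≤ c → c ≤ 4 → ∀ x : ℕ, ¬ t ∣ Nat.gcd c x := by
    intro c hc1 hc4 x h
    have := Nat.le_of_dvd (by omega) (h.trans (Nat.gcd_dvd_left c x))
    omega
  rcases hN with ⟨n, hn, h⟩ | ⟨n, hn, h⟩ | ⟨n, hn, h⟩ | ⟨n, hn, h⟩ | ⟨n, hn, h⟩ | ⟨-, h⟩ |
    ⟨-, h⟩ | ⟨-, h⟩ | ⟨-, h⟩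
  · refine key ht (fun h' => hs (h'.trans (Nat.gcd_dvd_right _ _))) h (Dvd.dvd.mul_left ?_ _)
    exact h4.trans (Finset.dvd_prod_of_mem (fun i : ℕ => (q : ℤ) ^ i - 1)
      (Finset.mem_Icc.2 ⟨by omega, by omega⟩ : 4 ∈ Finset.Icc 2 n))
  · refine key ht (fun h' => ha (h'.trans (Nat.gcd_dvd_right _ _))) h (Dvd.dvd.mul_left ?_ _)
    have h4' : (t : ℤ) ∣ (q : ℤ) ^ 4 - (-1) ^ 4 := by simpa using h4
    exact h4'.trans (Finset.dvd_prod_of_mem (fun i : ℕ => (q : ℤ) ^ i - (-1) ^ i)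
      (Finset.mem_Icc.2 ⟨by omega, by omega⟩ : 4 ∈ Finset.Icc 2 n))
  · refine key ht (hsm 2 (by norm_num) (by norm_num) _) h (Dvd.dvd.mul_left ?_ _)
    exact h4.trans (Finset.dvd_prod_of_mem (fun i : ℕ => (q : ℤ) ^ (2 * i) - 1)
      (Finset.mem_Icc.2 ⟨by omega, by omega⟩ : 2 ∈ Finset.Icc 1 n))
  · refine key ht (hsm 4 (by norm_num) (by norm_num) _) h (Dvd.dvd.mul_left ?_ _)
    exact h4.trans (Finset.dvd_prod_of_mem (fun i : ℕ => (q : ℤ) ^ (2 * i) - 1)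
      (Finset.mem_Icc.2 ⟨by omega, by omega⟩ : 2 ∈ Finset.Icc 1 (n - 1)))
  · refine key ht (hsm 4 (by norm_num) (by norm_num) _) h (Dvd.dvd.mul_left ?_ _)
    exact h4.trans (Finset.dvd_prod_of_mem (fun i : ℕ => (q : ℤ) ^ (2 * i) - 1)
      (Finset.mem_Icc.2 ⟨by omega, by omega⟩ : 2 ∈ Finset.Icc 1 (n - 1)))
  · refine key ht (fun h' => hs (h'.trans (Nat.gcd_dvd_right _ _))) h ?_
    exact h8.trans ⟨(q : ℤ) ^ 36 * (q ^ 12 - 1) * (q ^ 9 - 1) * (q ^ 6 - 1) * (q ^ 5 - 1) *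
      (q ^ 2 - 1), by ring⟩
  · refine key ht (fun h' => ha (h'.trans (Nat.gcd_dvd_right _ _))) h ?_
    exact h8.trans ⟨(q : ℤ) ^ 36 * (q ^ 12 - 1) * (q ^ 9 + 1) * (q ^ 6 - 1) * (q ^ 5 + 1) *
      (q ^ 2 - 1), by ring⟩
  · refine key ht (hsm 2 (by norm_num) (by norm_num) _) h ?_
    exact h8.trans ⟨(q : ℤ) ^ 63 * (q ^ 18 - 1) * (q ^ 14 - 1) * (q ^ 12 - 1) * (q ^ 10 - 1) *
      (q ^ 6 - 1) * (q ^ 2 - 1), by ring⟩
  · have h' : ((1 : ℕ) : ℤ) * N = q ^ 120 * (q ^ 30 - 1) * (q ^ 24 - 1) * (q ^ 20 - 1) *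
        (q ^ 18 - 1) * (q ^ 14 - 1) * (q ^ 12 - 1) * (q ^ 8 - 1) * (q ^ 2 - 1) := by
      rw [← h]; push_cast; ring
    refine key ht (fun h1 => ht.one_lt.ne' (Nat.dvd_one.1 h1)) h' ?_
    exact h8.trans ⟨(q : ℤ) ^ 120 * (q ^ 30 - 1) * (q ^ 24 - 1) * (q ^ 20 - 1) *
        (q ^ 18 - 1) * (q ^ 14 - 1) * (q ^ 12 - 1) * (q ^ 2 - 1), by ring⟩

/-- The arithmetic half, without any hypothesis. -/
theorem arithmetic {π : Set ℕ} (hπ : ∀ t ∈ π, t.Prime ∧ 5 ≤ t)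
    (h1 : ∀ t : ℕ, t.Prime → t % 4 = 1 → t ∈ π) {p k N : ℕ} (hp : p ∈ π) (hk : 1 ≤ k)
    (hN : LieOrder p (p ^ k) N) : ∃ t ∈ π, t ≠ p ∧ t ∣ N ∧ ¬ t ∣ p ^ k - 1 := by
  obtain ⟨hpp, hp5⟩ := hπ p hp
  obtain ⟨t, ht, ht4, htq⟩ := exists_prime hpp hp5 hk
  have htπ := h1 t ht ht4
  have ht5 := (hπ t htπ).2
  have hq : 1 ≤ p ^ k := Nat.one_le_pow _ _ hpp.pos
  refine ⟨t, htπ, ?_, dvd_order hp5 hq ht ht5 htq hN, not_dvd_sub ht ht5 hq htq⟩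
  rintro rfl
  have h2 : t ∣ (t ^ k) ^ 2 := dvd_pow (dvd_pow_self t (by omega)) (by norm_num)
  have h3 : t ∣ 1 := (Nat.dvd_add_right h2).1 htq
  exact ht.one_lt.ne' (Nat.dvd_one.1 h3)

theorem eeqD_of_criterion (hC : Criterion) {π : Set ℕ} (hπ : ∀ t ∈ π, t.Prime ∧ 5 ≤ t)
    (h1 : ∀ t : ℕ, t.Prime → t % 4 = 1 → t ∈ π) : EeqD π := by
  by_contra hE
  obtain ⟨p, hp, k, hk, G, _, _, -, -, -, hN, hdiv⟩ := hC π hπ hE
  obtain ⟨t, ht, htp, htN, htq⟩ := arithmetic hπ h1 hp hk hN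
  exact htq (hdiv t ht htp htN)

/-! ### Cardinality -/

/-- The primes `≡ 3 mod 4`, without `3`. -/
def A : Set ℕ := {t | t.Prime ∧ t % 4 = 3 ∧ 5 ≤ t}

lemma infinite_A : A.Infinite := by
  have h : {t : ℕ | t.Prime ∧ t ≡ 3 [MOD 4]}.Infinite :=
    Nat.infinite_setOfPred_prime_and_modEq (by norm_num) (by decide)
  refine (h.sdiff (Set.finite_Iio 5)).mono ?_
  rintro t ⟨⟨ht, ht4⟩, h5⟩
  refine ⟨ht, ?_, ?_⟩
  · simpa [Nat.ModEq] using ht4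
  · simpa using h5

/-- The sets of the family. -/
def setOf' (S : Set A) : Set ℕ := {t | t.Prime ∧ t % 4 = 1} ∪ (Subtype.val '' S)

lemma setOf'_injective : Function.Injective setOf' := by
  intro S T h
  ext x
  have key : ∀ U : Set A, (x : ℕ) ∈ setOf' U ↔ x ∈ U := by
    intro U
    constructor
    · rintro (h1 | ⟨y, hy, hyx⟩)
      · have := x.2.2.1
        have := h1.2
        omega
      · rwa [← Subtype.ext hyx]
    · intro hx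
      exact Or.inr ⟨x, hx, rfl⟩
  rw [← key S, ← key T, h]

lemma setOf'_mem (hC : Criterion) (S : Set A) : setOf' S ∈ family := by
  have hπ : ∀ t ∈ setOf' S, t.Prime ∧ 5 ≤ t := by
    rintro t (⟨ht, ht4⟩ | ⟨y, -, rfl⟩)
    · refine ⟨ht, ?_⟩
      by_contra hlt
      have h2 := ht.two_le
      interval_cases t <;> omega
    · exact ⟨y.2.1, y.2.2.2⟩
  exact ⟨fun t ht => (hπ t ht).1, eeqD_of_criterion hC hπ fun t ht ht4 => Or.inl ⟨ht, ht4⟩⟩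

open Cardinal in
theorem card_family (hC : Criterion) : Cardinal.mk family = Cardinal.continuum := by
  apply le_antisymm
  · calc Cardinal.mk family ≤ Cardinal.mk (Set ℕ) := Cardinal.mk_set_le _
      _ = Cardinal.continuum := by simp
  · have hA : Cardinal.mk A = ℵ₀ := by
      have := infinite_A.to_subtype
      exact Cardinal.mk_eq_aleph0 A
    calc Cardinal.continuum = Cardinal.mk (Set A) := by
          rw [Cardinal.mk_set, hA, Cardinal.two_power_aleph0]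
      _ ≤ Cardinal.mk family := Cardinal.mk_le_of_injective
          (f := fun S => (⟨setOf' S, setOf'_mem hC S⟩ : family))
          (fun S T h => setOf'_injective (congrArg Subtype.val h))

/-- Let `π` be a set of primes `≥ 5` which contains all primes `≡ 1 mod 4`. (1) Whenever `p ∈ π`,
`q` is a power of `p` and `N` is the order of a simple group of Lie type over the field with `q`
elements whose Weyl group has order divisible by `p`, some prime in `π` different from `p` divides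
`N` but not `q - 1`. (2) Hence the criterion of Gross, Revin and Vdovin gives `E_π = D_π`. (3) So
the criterion implies that the family of the sets `π` of primes with `E_π = D_π` has the
cardinality of the continuum. -/
theorem result :
    (∀ π : Set ℕ, (∀ t ∈ π, t.Prime ∧ 5 ≤ t) → (∀ t : ℕ, t.Prime → t % 4 = 1 → t ∈ π) →
      (∀ p ∈ π, ∀ k ≥ 1, ∀ N : ℕ, LieOrder p (p ^ k) N →
        ∃ t ∈ π, t ≠ p ∧ t ∣ N ∧ ¬ t ∣ p ^ k - 1) ∧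
      (Criterion → EeqD π)) ∧
    (Criterion → Cardinal.mk family = Cardinal.continuum) :=
  ⟨fun _ hπ h1 => ⟨fun _ hp _ hk _ hN => arithmetic hπ h1 hp hk hN,
    fun hC => eeqD_of_criterion hC hπ h1⟩, card_family⟩

end Pool.Agent.Results.MP_bf01c0_al.OddCriterion
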